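import Pool.Agent.Helper27.RV.St

/-!
# Module JOIN of project RV (helper27, MP_60edf5)
-/

set_option autoImplicit false

open Cardinal Ordinal Set

universe u

namespace Pool.Agent.Helper41.RV

open Pool.Agent.Helper27.RV

theorem pJOIN : StJOIN.{u} := by
  intro K m L Q J c X hm hQ h
  have h1 : ∀ q, ∃ ι : Type u, #ι < m ∧ ∃ E : ι → L → K → Ordinal.{u},
      ∀ S : L → ℕ → Ordinal.{u}, (∀ l ∈ X q, ∀ n, S l n < c q l) →
        ∃ B ⊆ X q, Cvd E S B ∧ B ∉ J q := by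
    intro q
    by_contra hcon
    refine h q (fun ι hι E => ?_)
    by_contra hcon2
    refine hcon ⟨ι, hι, E, fun S hS => ?_⟩
    by_contra hcon3
    refine hcon2 ⟨S, hS, fun B hB hC => ?_⟩
    by_contra hcon4
    exact hcon3 ⟨B, hB, hC, hcon4⟩
  choose ι hι E hE using h1
  refine ⟨Σ q, ι q, ?_, fun x => E x.1 x.2, fun q S hS => ?_⟩
  · rw [Cardinal.mk_sigma]
    exact Cardinal.sum_lt_of_isRegular hm hQ hι
  · obtain ⟨B, hB, ⟨I, hI, hC⟩, hJ⟩ := hE q S hS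
    refine ⟨B, hB, ⟨Sigma.mk q '' I, (Cardinal.mk_image_le).trans hI, fun l hl n => ?_⟩, hJ⟩
    obtain ⟨i, hi, k, hk⟩ := hC l hl n
    exact ⟨⟨q, i⟩, ⟨i, hi, rfl⟩, k, hk⟩

end Pool.Agent.Helper41.RV
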