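import Pool.Agent.Helper27.RV.St

/-!
# Module KV of project RV (helper27, MP_60edf5)
-/

set_option autoImplicit false

open Cardinal Ordinal Set

universe u

namespace Pool.Agent.Helper41.RV

open Pool.Agent.Helper27.RV

theorem pKV : StKV.{u} := by
  intro L D β T ι Dd uu v hSP hD hI
  by_contra hcon
  push Not at hcon
  obtain ⟨V, hV⟩ := hSP
  choose I hI1 hI2 using fun d => hcon (V d)
  have h2 : #(⋃ d, I d : Set ι) ≤ #D := by
    refine (Cardinal.mk_iUnion_le _).trans ?_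
    refine Cardinal.mul_le_of_le hD le_rfl ?_
    exact ciSup_le' hI1
  obtain ⟨e, he⟩ := hI (⋃ d, I d) h2
  obtain ⟨d, hd⟩ := hV (v e)
  obtain ⟨l, n, h3⟩ := hI2 d e (fun i hi => he i (mem_iUnion.2 ⟨d, hi⟩))
  obtain ⟨n', h4⟩ := hd l n
  exact h3 n' h4

end Pool.Agent.Helper41.RV
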